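import Pool.Agent.Lib.TAO.Ord

/-!
# Degrees of the residue field of a hypersurface over projections

`x : Fin (m + 1) → L` are elements of a field `L` over `k` whose relations are generated by `h`.
The degree of `x 0` over `k(x i.succ)` is the degree of `h` in the variable `0`, and the degree of
`x 0` over `k(x i.succ / x 0)` is `deg h - ord h` (lines through the origin).
-/

set_option autoImplicit false

open Polynomial

namespace Pool.Agent.TG1h5

open Pool.Agent.TAO (toAdj coe_toAdj toAdj_injective exists_frac wo wo_le exists_wo)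

section Gen

variable {A M L : Type*} [CommRing A] [IsDomain A] [Field M] [Field L] [Algebra A M]
  [IsFractionRing A M] [Algebra M L] [Algebra A L] [IsScalarTower A M L] {z : L}

omit [IsDomain A] in
theorem minpoly_le {H : A[X]} (hH : H ≠ 0) (hz : aeval z H = 0) :
    IsIntegral M z ∧ (minpoly M z).natDegree ≤ H.natDegree := by
  have h0 : H.map (algebraMap A M) ≠ 0 :=
    (Polynomial.map_ne_zero_iff (IsFractionRing.injective A M)).2 hH
  have h1 : aeval z (H.map (algebraMap A M)) = 0 := by
    rw [aeval_map_algebraMap]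
    exact hz
  have h2 : IsAlgebraic M z := ⟨_, h0, h1⟩
  exact ⟨h2.isIntegral, (natDegree_le_of_dvd (minpoly.dvd M z h1) h0).trans natDegree_map_le⟩

theorem exists_clear (hz : IsIntegral M z) : ∃ G : A[X], G ≠ 0 ∧ aeval z G = 0 ∧
    G.natDegree = (minpoly M z).natDegree ∧
    ∃ c : M, c ≠ 0 ∧ G.map (algebraMap A M) = C c * minpoly M z := by
  have hm : minpoly M z ≠ 0 := minpoly.ne_zero hz
  obtain ⟨b, hbA, hb⟩ := IsLocalization.integerNormalization_spec (nonZeroDivisors A)
    (minpoly M z)
  set G := IsLocalization.integerNormalization (nonZeroDivisors A) (minpoly M z) with hG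
  have hbM : algebraMap A M b ≠ 0 := by
    rw [Ne, map_eq_zero_iff _ (IsFractionRing.injective A M)]
    exact nonZeroDivisors.ne_zero hbA
  have h1 : G.map (algebraMap A M) = C (algebraMap A M b) * minpoly M z := by
    rw [hb, ← algebraMap_smul M b (minpoly M z), Polynomial.smul_eq_C_mul]
  have h2 : (G.map (algebraMap A M)).natDegree = G.natDegree :=
    natDegree_map_eq_of_injective (IsFractionRing.injective A M) _
  refine ⟨G, ?_, ?_, ?_, algebraMap A M b, hbM, h1⟩
  · intro h0
    rw [h0, Polynomial.map_zero] at h1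
    exact mul_ne_zero (C_ne_zero.2 hbM) hm h1.symm
  · rw [← aeval_map_algebraMap M, h1, map_mul, minpoly.aeval, mul_zero]
  · rw [← h2, h1, natDegree_C_mul hbM]

end Gen

section Psi

variable {k : Type*} [Field k] {m : ℕ}

/-- `g ↦ g(T, T S_1, .., T S_m)`. -/
noncomputable def psi (k : Type*) [Field k] (m : ℕ) :
    MvPolynomial (Fin (m + 1)) k →ₐ[k] (MvPolynomial (Fin m) k)[X] :=
  MvPolynomial.aeval (Fin.cons X fun j => X * C (MvPolynomial.X j))

theorem psi_zero : psi k m (MvPolynomial.X 0) = X := by
  rw [psi, MvPolynomial.aeval_X, Fin.cons_zero]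

theorem psi_succ (j : Fin m) : psi k m (MvPolynomial.X j.succ) = X * C (MvPolynomial.X j) := by
  rw [psi, MvPolynomial.aeval_X, Fin.cons_succ]

theorem psi_C (c : k) : psi k m (MvPolynomial.C c) = C (MvPolynomial.C c) := by
  rw [psi, MvPolynomial.algHom_C]
  rfl

theorem psi_monomial (d : Fin (m + 1) →₀ ℕ) (c : k) :
    psi k m (MvPolynomial.monomial d c) =
      C (MvPolynomial.monomial d.tail c) * X ^ (Finsupp.degree d) := by
  classical
  rw [psi, MvPolynomial.aeval_monomial, Finsupp.prod_fintype _ _ (by simp), Fin.prod_univ_succ,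
    Fin.cons_zero]
  simp only [Fin.cons_succ, mul_pow]
  rw [Finset.prod_mul_distrib, Finset.prod_pow_eq_pow_sum, Finsupp.degree_eq_sum,
    Fin.sum_univ_succ, pow_add, MvPolynomial.monomial_eq, Finsupp.prod_fintype _ _ (by simp)]
  have h1 : (algebraMap k (MvPolynomial (Fin m) k)[X]) c = C (MvPolynomial.C c) := rfl
  rw [h1, C_mul, map_prod]
  simp only [C_pow, Finsupp.tail_apply]
  ring

theorem coeff_psi (g : MvPolynomial (Fin (m + 1)) k) (j : ℕ) :
    (psi k m g).coeff j = ∑ d ∈ g.support.filter (fun d => Finsupp.degree d = j),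
      MvPolynomial.monomial d.tail (g.coeff d) := by
  classical
  conv_lhs => rw [g.as_sum, map_sum]
  rw [finsetSum_coeff, Finset.sum_filter]
  refine Finset.sum_congr rfl fun d _ => ?_
  rw [psi_monomial, coeff_C_mul, coeff_X_pow]
  split_ifs with h1 h2 h2
  · rw [mul_one]
  · exact absurd h1.symm h2
  · exact absurd h2.symm h1
  · rw [mul_zero]

theorem coeff_coeff_psi {g : MvPolynomial (Fin (m + 1)) k} {d : Fin (m + 1) →₀ ℕ}
    (hd : d ∈ g.support) : ((psi k m g).coeff (Finsupp.degree d)).coeff d.tail = g.coeff d := by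
  classical
  rw [coeff_psi, MvPolynomial.coeff_sum, Finset.sum_eq_single d]
  · rw [MvPolynomial.coeff_monomial, if_pos rfl]
  · intro e he hne
    rw [MvPolynomial.coeff_monomial, if_neg]
    intro h1
    apply hne
    have h2 : Finsupp.degree e = Finsupp.degree d := (Finset.mem_filter.1 he).2
    rw [Finsupp.degree_eq_sum, Finsupp.degree_eq_sum, Fin.sum_univ_succ, Fin.sum_univ_succ] at h2
    have h3 : ∀ j : Fin m, e j.succ = d j.succ := fun j => by
      rw [← Finsupp.tail_apply, h1, Finsupp.tail_apply]
    simp only [h3] at h2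
    ext i
    refine Fin.cases ?_ (fun j => h3 j) i
    omega
  · intro h1
    exact (h1 (by rw [Finset.mem_filter]; exact ⟨hd, rfl⟩)).elim

theorem psi_injective : Function.Injective (psi k m) := by
  rw [injective_iff_map_eq_zero]
  intro g hg
  by_contra h0
  obtain ⟨d, hd⟩ := MvPolynomial.support_nonempty.2 h0
  have h1 := coeff_coeff_psi hd
  rw [hg, coeff_zero, MvPolynomial.coeff_zero] at h1
  exact MvPolynomial.mem_support_iff.1 hd h1.symm

theorem exists_of_coeff_ne {g : MvPolynomial (Fin (m + 1)) k} {j : ℕ}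
    (h : (psi k m g).coeff j ≠ 0) : ∃ d ∈ g.support, Finsupp.degree d = j := by
  classical
  rw [coeff_psi] at h
  obtain ⟨d, hd, -⟩ := Finset.exists_ne_zero_of_sum_ne_zero h
  exact ⟨d, (Finset.mem_filter.1 hd).1, (Finset.mem_filter.1 hd).2⟩

theorem coeff_ne_of_mem {g : MvPolynomial (Fin (m + 1)) k} {d : Fin (m + 1) →₀ ℕ}
    (hd : d ∈ g.support) : (psi k m g).coeff (Finsupp.degree d) ≠ 0 := by
  intro h
  have h1 := coeff_coeff_psi hd
  rw [h, MvPolynomial.coeff_zero] at h1
  exact MvPolynomial.mem_support_iff.1 hd h1.symm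

theorem degree_le_totalDegree {g : MvPolynomial (Fin (m + 1)) k} {d : Fin (m + 1) →₀ ℕ}
    (hd : d ∈ g.support) : Finsupp.degree d ≤ g.totalDegree :=
  MvPolynomial.le_totalDegree hd

theorem natDegree_psi (g : MvPolynomial (Fin (m + 1)) k) :
    (psi k m g).natDegree = g.totalDegree := by
  classical
  by_cases h0 : g = 0
  · rw [h0, map_zero, natDegree_zero, MvPolynomial.totalDegree_zero]
  have hp : psi k m g ≠ 0 := fun h => h0 (psi_injective (by rw [h, map_zero]))
  refine le_antisymm ?_ ?_
  · obtain ⟨d, hd, hd'⟩ := exists_of_coeff_ne (g := g) (j := (psi k m g).natDegree) (by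
      rw [coeff_natDegree]
      exact leadingCoeff_ne_zero.2 hp)
    rw [← hd']
    exact degree_le_totalDegree hd
  · refine Finset.sup_le fun d hd => ?_
    exact le_natDegree_of_ne_zero (coeff_ne_of_mem hd)

theorem weight_one' (d : Fin (m + 1) →₀ ℕ) :
    Finsupp.weight (fun _ : Fin (m + 1) => 1) d = Finsupp.degree d := by
  rw [Finsupp.weight_apply, Finsupp.degree_eq_sum, Finsupp.sum_fintype _ _ (by simp)]
  simp

/-- The order at the origin. -/
noncomputable def ord0 (g : MvPolynomial (Fin (m + 1)) k) : ℕ := wo (fun _ => 1) g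

theorem trailing_psi {g : MvPolynomial (Fin (m + 1)) k} (h0 : g ≠ 0) :
    (psi k m g).natTrailingDegree = ord0 g := by
  have hp : psi k m g ≠ 0 := fun h => h0 (psi_injective (by rw [h, map_zero]))
  refine le_antisymm ?_ ?_
  · obtain ⟨d, hd, hd'⟩ := exists_wo (fun _ => 1) h0
    rw [ord0, ← hd', weight_one']
    exact natTrailingDegree_le_of_ne_zero (coeff_ne_of_mem hd)
  · obtain ⟨d, hd, hd'⟩ := exists_of_coeff_ne (g := g) (j := (psi k m g).natTrailingDegree) (by
      exact trailingCoeff_nonzero_iff_nonzero.2 hp)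
    rw [← hd', ← weight_one']
    exact wo_le _ hd

theorem exists_lift (G : (MvPolynomial (Fin m) k)[X]) :
    ∃ (N : ℕ) (g : MvPolynomial (Fin (m + 1)) k), psi k m g = X ^ N * G := by
  have hadd : ∀ G G' : (MvPolynomial (Fin m) k)[X],
      (∃ (N : ℕ) (g : MvPolynomial (Fin (m + 1)) k), psi k m g = X ^ N * G) →
      (∃ (N : ℕ) (g : MvPolynomial (Fin (m + 1)) k), psi k m g = X ^ N * G') →
      ∃ (N : ℕ) (g : MvPolynomial (Fin (m + 1)) k), psi k m g = X ^ N * (G + G') := by
    rintro G G' ⟨N, g, hg⟩ ⟨N', g', hg'⟩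
    refine ⟨N + N', MvPolynomial.X 0 ^ N' * g + MvPolynomial.X 0 ^ N * g', ?_⟩
    rw [map_add, map_mul, map_mul, map_pow, map_pow, psi_zero, hg, hg']
    ring
  have hC : ∀ a : MvPolynomial (Fin m) k,
      ∃ (N : ℕ) (g : MvPolynomial (Fin (m + 1)) k), psi k m g = X ^ N * C a := by
    intro a
    induction a using MvPolynomial.induction_on with
    | C c => exact ⟨0, MvPolynomial.C c, by rw [psi_C, pow_zero, one_mul]⟩
    | add a b ha hb =>
      rw [C_add]
      exact hadd _ _ ha hb
    | mul_X a j ha =>
      obtain ⟨N, g, hg⟩ := ha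
      refine ⟨N + 1, g * MvPolynomial.X j.succ, ?_⟩
      rw [map_mul, psi_succ, hg, C_mul]
      ring
  induction G using Polynomial.induction_on with
  | C a => exact hC a
  | add G G' hG hG' => exact hadd _ _ hG hG'
  | monomial n a hG =>
    obtain ⟨N, g, hg⟩ := hG
    refine ⟨N, g * MvPolynomial.X 0, ?_⟩
    rw [map_mul, psi_zero, hg, pow_succ]
    ring

end Psi

section Deg

variable {k L : Type*} [Field k] [Field L] [Algebra k L] {m : ℕ}

/-- `k(s)` as a field of fractions of the polynomial ring. -/
theorem isFractionRing_adj {σ : Type*} {s : σ → L} (hi : AlgebraicIndependent k s)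
    (M : IntermediateField k L) (hs : ∀ i, s i ∈ M)
    (hM : M = IntermediateField.adjoin k (Set.range s)) :
    letI : Algebra (MvPolynomial σ k) M := (toAdj s M hs).toRingHom.toAlgebra
    IsFractionRing (MvPolynomial σ k) M := by
  let _ : Algebra (MvPolynomial σ k) M := (toAdj s M hs).toRingHom.toAlgebra
  have : FaithfulSMul (MvPolynomial σ k) M :=
    (faithfulSMul_iff_algebraMap_injective _ _).2 (toAdj_injective hi M hs)
  refine IsFractionRing.of_field _ _ fun z => ?_
  obtain ⟨a, b, -, hz⟩ := exists_frac s M hs hM z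
  exact ⟨a, b, hz⟩

/-- (D2): the degree over the projection from the point at infinity of the `0`-th axis. -/
theorem deg_two (x : Fin (m + 1) → L) {h : MvPolynomial (Fin (m + 1)) k} (h0 : h ≠ 0)
    (hk : RingHom.ker (MvPolynomial.aeval x : MvPolynomial (Fin (m + 1)) k →ₐ[k] L) =
      Ideal.span {h})
    (hi : AlgebraicIndependent k fun i : Fin m => x i.succ) (M : IntermediateField k L)
    (hM : M = IntermediateField.adjoin k (Set.range fun i : Fin m => x i.succ)) :
    IsIntegral M (x 0) ∧ (minpoly M (x 0)).natDegree = h.degreeOf 0 := by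
  have hs : ∀ i : Fin m, x i.succ ∈ M := fun i => by
    rw [hM]
    exact IntermediateField.subset_adjoin k _ ⟨i, rfl⟩
  let _ : Algebra (MvPolynomial (Fin m) k) M :=
    (toAdj (fun i : Fin m => x i.succ) M hs).toRingHom.toAlgebra
  have hfr : IsFractionRing (MvPolynomial (Fin m) k) M := isFractionRing_adj hi M hs hM
  let _ : Algebra (MvPolynomial (Fin m) k) L :=
    ((algebraMap M L).comp (algebraMap (MvPolynomial (Fin m) k) M)).toAlgebra
  have htow : IsScalarTower (MvPolynomial (Fin m) k) M L := IsScalarTower.of_algebraMap_eq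
    fun _ => rfl
  have hA : ∀ a : MvPolynomial (Fin m) k, algebraMap (MvPolynomial (Fin m) k) L a =
      MvPolynomial.aeval (fun i : Fin m => x i.succ) a := fun a => coe_toAdj _ M hs a
  have hev : ∀ g : MvPolynomial (Fin (m + 1)) k,
      aeval (x 0) (MvPolynomial.finSuccEquiv k m g) = MvPolynomial.aeval x g := by
    intro g
    induction g using MvPolynomial.induction_on with
    | C c =>
      have h1 : MvPolynomial.finSuccEquiv k m (MvPolynomial.C c) = C (MvPolynomial.C c) :=
        (MvPolynomial.finSuccEquiv k m).commutes c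
      rw [h1, aeval_C, hA, MvPolynomial.algHom_C, MvPolynomial.algHom_C]
    | add g g' h1 h2 => rw [map_add, map_add, map_add, h1, h2]
    | mul_X g i h1 =>
      rw [map_mul, map_mul, map_mul, h1, MvPolynomial.aeval_X]
      congr 1
      refine Fin.cases ?_ (fun j => ?_) i
      · rw [MvPolynomial.finSuccEquiv_X_zero, aeval_X]
      · rw [MvPolynomial.finSuccEquiv_X_succ, aeval_C, hA, MvPolynomial.aeval_X]
  have hmem : MvPolynomial.aeval x h = (0 : L) := by
    have h1 : h ∈ RingHom.ker (MvPolynomial.aeval x : MvPolynomial (Fin (m + 1)) k →ₐ[k] L) := by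
      rw [hk]
      exact Ideal.mem_span_singleton_self h
    exact h1
  have hH0 : MvPolynomial.finSuccEquiv k m h ≠ 0 := fun h1 =>
    h0 ((MvPolynomial.finSuccEquiv k m).injective (by rw [h1, map_zero]))
  obtain ⟨h1, h2⟩ := minpoly_le (M := M) (z := x 0) hH0 (by rw [hev, hmem])
  refine ⟨h1, le_antisymm (h2.trans (MvPolynomial.natDegree_finSuccEquiv h).le) ?_⟩
  obtain ⟨G, hG0, hGz, hGd, -⟩ := exists_clear (A := MvPolynomial (Fin m) k) h1
  have h3 : MvPolynomial.aeval x ((MvPolynomial.finSuccEquiv k m).symm G) = (0 : L) := by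
    rw [← hev, AlgEquiv.apply_symm_apply, hGz]
  have h4 : h ∣ (MvPolynomial.finSuccEquiv k m).symm G := by
    rw [← Ideal.mem_span_singleton, ← hk]
    exact h3
  have h5 : MvPolynomial.finSuccEquiv k m h ∣ G := by
    have h6 := map_dvd (MvPolynomial.finSuccEquiv k m) h4
    rwa [AlgEquiv.apply_symm_apply] at h6
  rw [← hGd, ← MvPolynomial.natDegree_finSuccEquiv]
  exact natDegree_le_of_dvd h5 hG0

/-- (D1): the degree over the projection from the origin. -/
theorem deg_one (x : Fin (m + 1) → L) {h : MvPolynomial (Fin (m + 1)) k} (h0 : h ≠ 0)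
    (hk : RingHom.ker (MvPolynomial.aeval x : MvPolynomial (Fin (m + 1)) k →ₐ[k] L) =
      Ideal.span {h}) (hx0 : x 0 ≠ 0)
    (hi : AlgebraicIndependent k fun i : Fin m => x i.succ / x 0) (M : IntermediateField k L)
    (hM : M = IntermediateField.adjoin k (Set.range fun i : Fin m => x i.succ / x 0)) :
    IsIntegral M (x 0) ∧ (minpoly M (x 0)).natDegree = h.totalDegree - ord0 h := by
  have hs : ∀ i : Fin m, x i.succ / x 0 ∈ M := fun i => by
    rw [hM]
    exact IntermediateField.subset_adjoin k _ ⟨i, rfl⟩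
  let _ : Algebra (MvPolynomial (Fin m) k) M :=
    (toAdj (fun i : Fin m => x i.succ / x 0) M hs).toRingHom.toAlgebra
  have hfr : IsFractionRing (MvPolynomial (Fin m) k) M := isFractionRing_adj hi M hs hM
  let _ : Algebra (MvPolynomial (Fin m) k) L :=
    ((algebraMap M L).comp (algebraMap (MvPolynomial (Fin m) k) M)).toAlgebra
  have htow : IsScalarTower (MvPolynomial (Fin m) k) M L := IsScalarTower.of_algebraMap_eq
    fun _ => rfl
  have hA : ∀ a : MvPolynomial (Fin m) k, algebraMap (MvPolynomial (Fin m) k) L a =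
      MvPolynomial.aeval (fun i : Fin m => x i.succ / x 0) a := fun a => coe_toAdj _ M hs a
  have hev : ∀ g : MvPolynomial (Fin (m + 1)) k,
      aeval (x 0) (psi k m g) = MvPolynomial.aeval x g := by
    intro g
    induction g using MvPolynomial.induction_on with
    | C c => rw [psi_C, aeval_C, hA, MvPolynomial.algHom_C, MvPolynomial.algHom_C]
    | add g g' h1 h2 => rw [map_add, map_add, map_add, h1, h2]
    | mul_X g i h1 =>
      rw [map_mul, map_mul, map_mul, h1, MvPolynomial.aeval_X]
      congr 1
      refine Fin.cases ?_ (fun j => ?_) i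
      · rw [psi_zero, aeval_X]
      · rw [psi_succ, map_mul, aeval_X, aeval_C, hA, MvPolynomial.aeval_X,
          mul_div_cancel₀ _ hx0]
  have hmem : MvPolynomial.aeval x h = (0 : L) := by
    have h1 : h ∈ RingHom.ker (MvPolynomial.aeval x : MvPolynomial (Fin (m + 1)) k →ₐ[k] L) := by
      rw [hk]
      exact Ideal.mem_span_singleton_self h
    exact h1
  have hH0 : psi k m h ≠ 0 := fun h1 => h0 (psi_injective (by rw [h1, map_zero]))
  -- remove the power of `T`
  obtain ⟨H, hH⟩ : X ^ (psi k m h).natTrailingDegree ∣ psi k m h := by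
    rw [X_pow_dvd_iff]
    intro d hd
    exact coeff_eq_zero_of_lt_natTrailingDegree hd
  have hHne : H ≠ 0 := by
    rintro rfl
    rw [mul_zero] at hH
    exact hH0 hH
  have hHz : aeval (x 0) H = 0 := by
    have h1 := hev h
    rw [hmem, hH, map_mul, map_pow, aeval_X] at h1
    exact (mul_eq_zero.1 h1).resolve_left (pow_ne_zero _ hx0)
  have hHd : H.natDegree = h.totalDegree - ord0 h := by
    have h1 := congrArg natDegree hH
    rw [natDegree_psi, natDegree_mul (pow_ne_zero _ X_ne_zero) hHne, natDegree_X_pow,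
      trailing_psi h0] at h1
    omega
  obtain ⟨h1, h2⟩ := minpoly_le (M := M) (z := x 0) hHne hHz
  refine ⟨h1, le_antisymm (h2.trans hHd.le) ?_⟩
  obtain ⟨G, hG0, hGz, hGd, -⟩ := exists_clear (A := MvPolynomial (Fin m) k) h1
  obtain ⟨N, g, hg⟩ := exists_lift G
  have h3 : MvPolynomial.aeval x g = (0 : L) := by
    rw [← hev, hg, map_mul, hGz, mul_zero]
  have h4 : h ∣ g := by
    rw [← Ideal.mem_span_singleton, ← hk]
    exact h3
  obtain ⟨q, hq⟩ := map_dvd (psi k m) h4
  have hXG : X ^ N * G ≠ 0 := mul_ne_zero (pow_ne_zero _ X_ne_zero) hG0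
  rw [hg] at hq
  have hq0 : q ≠ 0 := by
    rintro rfl
    rw [mul_zero] at hq
    exact hXG hq
  have h5 := congrArg natDegree hq
  have h6 := congrArg natTrailingDegree hq
  rw [natDegree_mul (pow_ne_zero _ X_ne_zero) hG0, natDegree_mul hH0 hq0, natDegree_X_pow,
    natDegree_psi] at h5
  rw [natTrailingDegree_mul (pow_ne_zero _ X_ne_zero) hG0, natTrailingDegree_mul hH0 hq0,
    natTrailingDegree_X_pow, trailing_psi h0] at h6
  have h7 := natTrailingDegree_le_natDegree q
  rw [← hGd]
  omega

/-- (D0): the relations between the residues are generated by one polynomial. -/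
theorem exists_ker (x : Fin (m + 1) → L) (hx0 : x 0 ≠ 0)
    (hi : AlgebraicIndependent k fun i : Fin m => x i.succ / x 0)
    (hn : ¬ AlgebraicIndependent k x) :
    ∃ h : MvPolynomial (Fin (m + 1)) k, Irreducible h ∧
      RingHom.ker (MvPolynomial.aeval x : MvPolynomial (Fin (m + 1)) k →ₐ[k] L) =
        Ideal.span {h} := by
  classical
  obtain ⟨M, hM⟩ : ∃ M : IntermediateField k L,
      M = IntermediateField.adjoin k (Set.range fun i : Fin m => x i.succ / x 0) := ⟨_, rfl⟩
  have hs : ∀ i : Fin m, x i.succ / x 0 ∈ M := fun i => by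
    rw [hM]
    exact IntermediateField.subset_adjoin k _ ⟨i, rfl⟩
  let _ : Algebra (MvPolynomial (Fin m) k) M :=
    (toAdj (fun i : Fin m => x i.succ / x 0) M hs).toRingHom.toAlgebra
  have hfr : IsFractionRing (MvPolynomial (Fin m) k) M := isFractionRing_adj hi M hs hM
  let _ : Algebra (MvPolynomial (Fin m) k) L :=
    ((algebraMap M L).comp (algebraMap (MvPolynomial (Fin m) k) M)).toAlgebra
  have htow : IsScalarTower (MvPolynomial (Fin m) k) M L := IsScalarTower.of_algebraMap_eq
    fun _ => rfl
  have hA : ∀ a : MvPolynomial (Fin m) k, algebraMap (MvPolynomial (Fin m) k) L a =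
      MvPolynomial.aeval (fun i : Fin m => x i.succ / x 0) a := fun a => coe_toAdj _ M hs a
  have hev : ∀ g : MvPolynomial (Fin (m + 1)) k,
      aeval (x 0) (psi k m g) = MvPolynomial.aeval x g := by
    intro g
    induction g using MvPolynomial.induction_on with
    | C c => rw [psi_C, aeval_C, hA, MvPolynomial.algHom_C, MvPolynomial.algHom_C]
    | add g g' h1 h2 => rw [map_add, map_add, map_add, h1, h2]
    | mul_X g i h1 =>
      rw [map_mul, map_mul, map_mul, h1, MvPolynomial.aeval_X]
      congr 1
      refine Fin.cases ?_ (fun j => ?_) i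
      · rw [psi_zero, aeval_X]
      · rw [psi_succ, map_mul, aeval_X, aeval_C, hA, MvPolynomial.aeval_X,
          mul_div_cancel₀ _ hx0]
  have hinjM : Function.Injective (algebraMap (MvPolynomial (Fin m) k) M) :=
    IsFractionRing.injective _ _
  -- `x 0` is algebraic
  obtain ⟨g₀, hg₀, hg₀0⟩ : ∃ g : MvPolynomial (Fin (m + 1)) k, MvPolynomial.aeval x g = 0 ∧
      g ≠ 0 := by
    by_contra hcon
    push Not at hcon
    exact hn ((injective_iff_map_eq_zero _).2 fun g hg => hcon g hg)
  have hz := (minpoly_le (M := M) (z := x 0)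
    (H := psi k m g₀) (fun h1 => hg₀0 (psi_injective (by rw [h1, map_zero])))
    (by rw [hev, hg₀])).1
  obtain ⟨G, hG0, -, -, c, hc, hGc⟩ := exists_clear (A := MvPolynomial (Fin m) k) hz
  obtain ⟨_⟩ : Nonempty (NormalizedGCDMonoid (MvPolynomial (Fin m) k)) := inferInstance
  set H := G.primPart with hH
  have hHp : H.IsPrimitive := isPrimitive_primPart G
  have hcont : algebraMap (MvPolynomial (Fin m) k) M G.content ≠ 0 := by
    intro h1
    rw [map_eq_zero_iff _ hinjM, content_eq_zero_iff] at h1
    exact hG0 h1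
  have hHM : minpoly M (x 0) = C (c⁻¹ * algebraMap (MvPolynomial (Fin m) k) M G.content) *
      H.map (algebraMap (MvPolynomial (Fin m) k) M) := by
    have h1 : G.map (algebraMap (MvPolynomial (Fin m) k) M) =
        C (algebraMap (MvPolynomial (Fin m) k) M G.content) *
          H.map (algebraMap (MvPolynomial (Fin m) k) M) := by
      conv_lhs => rw [G.eq_C_content_mul_primPart]
      rw [Polynomial.map_mul, map_C]
    rw [C_mul, mul_assoc, ← h1, hGc, ← mul_assoc, ← C_mul, inv_mul_cancel₀ hc, C_1, one_mul]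
  have hu : c⁻¹ * algebraMap (MvPolynomial (Fin m) k) M G.content ≠ 0 :=
    mul_ne_zero (inv_ne_zero hc) hcont
  have hHz : aeval (x 0) H = 0 := by
    have h1 := minpoly.aeval M (x 0)
    rw [hHM, map_mul, aeval_C, aeval_map_algebraMap] at h1
    exact (mul_eq_zero.1 h1).resolve_left fun h2 => hu ((map_eq_zero _).1 h2)
  have hdvd : ∀ F : (MvPolynomial (Fin m) k)[X], aeval (x 0) F = 0 → H ∣ F := by
    intro F hF
    have h1 : minpoly M (x 0) ∣ F.map (algebraMap (MvPolynomial (Fin m) k) M) :=
      minpoly.dvd M _ (by rw [aeval_map_algebraMap]; exact hF)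
    have h2 : H.map (algebraMap (MvPolynomial (Fin m) k) M) ∣
        F.map (algebraMap (MvPolynomial (Fin m) k) M) := by
      refine dvd_trans ?_ h1
      rw [hHM]
      exact dvd_mul_left _ _
    exact hHp.dvd_of_fraction_map_dvd_fraction_map h2
  -- the polynomial `h`
  obtain ⟨N, h', hh'⟩ := exists_lift H
  have hX0 : Prime (MvPolynomial.X 0 : MvPolynomial (Fin (m + 1)) k) := MvPolynomial.X_prime
  have hh'0 : h' ≠ 0 := by
    rintro rfl
    rw [map_zero] at hh'
    exact mul_ne_zero (pow_ne_zero _ X_ne_zero) hHp.ne_zero hh'.symm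
  obtain ⟨h, hhe, hhX⟩ := (FiniteMultiplicity.of_not_isUnit hX0.not_isUnit
    hh'0).exists_eq_pow_mul_and_not_dvd
  have hhx : MvPolynomial.aeval x h = (0 : L) := by
    have h1 : MvPolynomial.aeval x h' = (0 : L) := by
      rw [← hev, hh', map_mul, hHz, mul_zero]
    rw [hhe, map_mul, map_pow, MvPolynomial.aeval_X] at h1
    exact (mul_eq_zero.1 h1).resolve_left (pow_ne_zero _ hx0)
  have hker : RingHom.ker (MvPolynomial.aeval x : MvPolynomial (Fin (m + 1)) k →ₐ[k] L) =
      Ideal.span {h} := by
    refine le_antisymm ?_ ?_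
    · intro g hg
      have hg' : MvPolynomial.aeval x g = (0 : L) := hg
      rw [Ideal.mem_span_singleton]
      obtain ⟨Q, hQ⟩ := hdvd (psi k m g) (by rw [hev, hg'])
      obtain ⟨N', q', hq'⟩ := exists_lift Q
      have h1 : MvPolynomial.X 0 ^ (N + N') * g = h * (MvPolynomial.X 0 ^
          multiplicity (MvPolynomial.X 0) h' * q') := by
        apply psi_injective
        have h2 : h * (MvPolynomial.X 0 ^ multiplicity (MvPolynomial.X 0) h' * q') = h' * q' := by
          conv_rhs => rw [hhe]
          ring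
        rw [h2, map_mul, map_mul, map_pow, psi_zero, hh', hq', hQ]
        ring
      have h2 := hX0.pow_dvd_of_dvd_mul_left (N + N') hhX (Dvd.intro _ h1)
      obtain ⟨r, hr⟩ := h2
      refine ⟨r, ?_⟩
      rw [hr] at h1
      apply mul_left_cancel₀ (pow_ne_zero (N + N') hX0.ne_zero)
      rw [h1]
      ring
    · rw [Ideal.span_singleton_le_iff_mem]
      exact hhx
  refine ⟨h, ?_, hker⟩
  have hh0 : h ≠ 0 := by
    rintro rfl
    exact hhX (dvd_zero _)
  have hprime : (Ideal.span {h}).IsPrime := by
    rw [← hker]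
    exact RingHom.ker_isPrime _
  exact ((Ideal.span_singleton_prime hh0).1 hprime).irreducible

theorem adj_eq_one (x : Fin (m + 1) → L) (hx0 : x 0 ≠ 0) (M : IntermediateField k L)
    (hM : M = IntermediateField.adjoin k (Set.range fun i : Fin m => x i.succ / x 0)) :
    (IntermediateField.adjoin M {x 0}).restrictScalars k =
      IntermediateField.adjoin k (Set.range x) := by
  apply le_antisymm
  · intro z hz
    have h1 : IntermediateField.adjoin M {x 0} ≤
        IntermediateField.extendScalars (F := M) (E := IntermediateField.adjoin k (Set.range x))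
          (by
            rw [hM, IntermediateField.adjoin_le_iff]
            rintro _ ⟨i, rfl⟩
            exact div_mem (IntermediateField.subset_adjoin k _ ⟨_, rfl⟩)
              (IntermediateField.subset_adjoin k _ ⟨_, rfl⟩)) := by
      rw [IntermediateField.adjoin_le_iff]
      rintro _ rfl
      exact IntermediateField.subset_adjoin k _ ⟨0, rfl⟩
    exact h1 hz
  · rw [IntermediateField.adjoin_le_iff]
    rintro _ ⟨i, rfl⟩
    have h0 : x 0 ∈ IntermediateField.adjoin M {x 0} :=
      IntermediateField.subset_adjoin M _ rfl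
    change x i ∈ IntermediateField.adjoin M {x 0}
    refine Fin.cases h0 (fun j => ?_) i
    have h1 : x j.succ / x 0 ∈ M := by
      rw [hM]
      exact IntermediateField.subset_adjoin k _ ⟨j, rfl⟩
    have h2 : x j.succ / x 0 ∈ IntermediateField.adjoin M {x 0} :=
      (IntermediateField.adjoin M {x 0}).algebraMap_mem ⟨_, h1⟩
    have h3 := mul_mem h0 h2
    rwa [mul_div_cancel₀ _ hx0] at h3

theorem adj_eq_two (x : Fin (m + 1) → L) (M : IntermediateField k L)
    (hM : M = IntermediateField.adjoin k (Set.range fun i : Fin m => x i.succ)) :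
    (IntermediateField.adjoin M {x 0}).restrictScalars k =
      IntermediateField.adjoin k (Set.range x) := by
  apply le_antisymm
  · intro z hz
    have h1 : IntermediateField.adjoin M {x 0} ≤
        IntermediateField.extendScalars (F := M) (E := IntermediateField.adjoin k (Set.range x))
          (by
            rw [hM, IntermediateField.adjoin_le_iff]
            rintro _ ⟨i, rfl⟩
            exact IntermediateField.subset_adjoin k _ ⟨_, rfl⟩) := by
      rw [IntermediateField.adjoin_le_iff]
      rintro _ rfl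
      exact IntermediateField.subset_adjoin k _ ⟨0, rfl⟩
    exact h1 hz
  · rw [IntermediateField.adjoin_le_iff]
    rintro _ ⟨i, rfl⟩
    have h0 : x 0 ∈ IntermediateField.adjoin M {x 0} :=
      IntermediateField.subset_adjoin M _ rfl
    change x i ∈ IntermediateField.adjoin M {x 0}
    refine Fin.cases h0 (fun j => ?_) i
    have h1 : x j.succ ∈ M := by
      rw [hM]
      exact IntermediateField.subset_adjoin k _ ⟨j, rfl⟩
    exact (IntermediateField.adjoin M {x 0}).algebraMap_mem ⟨_, h1⟩

theorem finrank_tower (x : Fin (m + 1) → L) (M : IntermediateField k L)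
    (hadj : (IntermediateField.adjoin M {x 0}).restrictScalars k =
      IntermediateField.adjoin k (Set.range x)) (hint : IsIntegral M (x 0)) :
    Module.finrank M L = (minpoly M (x 0)).natDegree *
      Module.finrank (IntermediateField.adjoin k (Set.range x)) L := by
  rw [← IntermediateField.adjoin.finrank hint, ← hadj]
  exact (Module.finrank_mul_finrank M (IntermediateField.adjoin M {x 0}) L).symm

/-- (D1) with `finrank`. -/
theorem finrank_one (x : Fin (m + 1) → L) {h : MvPolynomial (Fin (m + 1)) k} (h0 : h ≠ 0)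
    (hk : RingHom.ker (MvPolynomial.aeval x : MvPolynomial (Fin (m + 1)) k →ₐ[k] L) =
      Ideal.span {h}) (hx0 : x 0 ≠ 0)
    (hi : AlgebraicIndependent k fun i : Fin m => x i.succ / x 0) :
    Module.finrank (IntermediateField.adjoin k (Set.range fun i : Fin m => x i.succ / x 0)) L =
      (h.totalDegree - ord0 h) *
        Module.finrank (IntermediateField.adjoin k (Set.range x)) L := by
  obtain ⟨h1, h2⟩ := deg_one x h0 hk hx0 hi _ rfl
  rw [finrank_tower x _ (adj_eq_one x hx0 _ rfl) h1, h2]

/-- (D2) with `finrank`. -/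
theorem finrank_two (x : Fin (m + 1) → L) {h : MvPolynomial (Fin (m + 1)) k} (h0 : h ≠ 0)
    (hk : RingHom.ker (MvPolynomial.aeval x : MvPolynomial (Fin (m + 1)) k →ₐ[k] L) =
      Ideal.span {h}) (hi : AlgebraicIndependent k fun i : Fin m => x i.succ) :
    Module.finrank (IntermediateField.adjoin k (Set.range fun i : Fin m => x i.succ)) L =
      h.degreeOf 0 * Module.finrank (IntermediateField.adjoin k (Set.range x)) L := by
  obtain ⟨h1, h2⟩ := deg_two x h0 hk hi _ rfl
  rw [finrank_tower x _ (adj_eq_two x _ rfl) h1, h2]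

end Deg

end Pool.Agent.TG1h5
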